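import Pool.Agent.Saw39.SBR.GapsW
import Pool.Agent.Saw39.SBR.HGapsW
import Pool.Agent.Saw39.SBR.ChainW
import Pool.Agent.Saw39.SBR.HChainW
import Pool.Agent.Saw39.SBR.IterW
import Pool.Agent.Saw39.SBR.FinalW

/-!
Quantitative sub-ballisticity of planar self-avoiding walks on the square, triangular and
hexagonal lattices: the mean square of the maximal displacement of the uniformly random `n`-step
self-avoiding walk is at most `K n ^ 2 exp (-(log n) ^ β)` for every `β < 1 / 2`, and the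
probability that the maximal displacement is at least `v n` is at most
`exp (K √n - n exp (-K (log (e / v)) ^ p))` for every `p > 2`.
-/

set_option autoImplicit false
open scoped Classical

namespace Pool.Agent.Held57.SubBallisticMax

theorem result :
    ∀ (k : ℕ) (f : ℕ → Fin k → ℂ),
      ((k = 4 ∧ ∀ i a, f i a = Complex.I ^ (a : ℕ)) ∨
       (k = 6 ∧ ∀ i a, f i a = Complex.exp (2 * (Real.pi : ℂ) * Complex.I * ((a : ℕ) : ℂ) / 6)) ∨
       (k = 3 ∧ ∀ i a, f i a =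
         (-1 : ℂ) ^ i * Complex.exp (2 * (Real.pi : ℂ) * Complex.I * ((a : ℕ) : ℂ) / 3))) →
      (∀ β : ℝ, 0 < β → β < 1 / 2 → ∃ K : ℝ, 0 < K ∧ ∀ n : ℕ, 1 ≤ n →
        (∑ s ∈ SawNu.saw f n, ⨆ j : Fin (n + 1), ‖SawNu.pos f s j‖ ^ 2) /
            ((SawNu.saw f n).card : ℝ) ≤
          K * (n : ℝ) ^ 2 * Real.exp (-((Real.log n) ^ β))) ∧
      (∀ p : ℝ, 2 < p → ∃ K : ℝ, 0 < K ∧ ∀ (n : ℕ) (v : ℝ), 0 < v → v ≤ 1 →
        (((SawNu.saw f n).filter
            (fun s => ∃ j : Fin (n + 1), v * n ≤ ‖SawNu.pos f s j‖)).card : ℝ) ≤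
          Real.exp (K * Real.sqrt n - n * Real.exp (-(K * (Real.log (Real.exp 1 / v)) ^ p))) *
            ((SawNu.saw f n).card : ℝ)) :=
  SawNu.SBR.rate_final_three
    (SawNu.SBR.rateGain_of_iter (fun _ => SawNu.SB.sa_le_one _) (fun _ _ => SawNu.SB.sa_mono _)
      (fun _ h0 h1 => SawNu.SBR.stepW_sq (SawNu.SBR.rw_Wr h0 (by linarith))
        (SawNu.SBR.gapW_sq h0 h1) (SawNu.SBR.gapW_dsq h0 h1)))
    (SawNu.SBR.rateGain_of_iter (fun _ => SawNu.SB.sa_le_one _) (fun _ _ => SawNu.SB.sa_mono _)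
      (fun _ h0 h1 => SawNu.SBR.stepW_tri (SawNu.SBR.rw_Wr h0 (by linarith))
        (SawNu.SBR.gapW_tri h0 h1)))
    (SawNu.SBR.rateGain_of_iter (fun _ => SawNu.SBH.sh_le_one) (fun _ _ => SawNu.SBH.sh_mono)
      (fun _ h0 h1 => SawNu.SBR.stepW_hex (SawNu.SBR.rw_Wr h0 (by linarith))
        (SawNu.SBR.hgapW h0 h1)))

end Pool.Agent.Held57.SubBallisticMax
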