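import Pool.Agent.SDE.Final

/-!
Superdiffusivity of self-avoiding walks on the hexagonal lattice: in every window
`[n, n + K n ^ (1 - δ)]` there is a length `N` for which the mean squared end-to-end distance of the
uniformly random `N`-step self-avoiding walk is at least `N ^ (27 / 25) / K`.
-/

set_option autoImplicit false
open scoped Classical

namespace Pool.Agent.Held57.SuperdiffusiveWindow

theorem result :
    ∃ δ K : ℝ, 0 < δ ∧ δ < 1 ∧ 0 < K ∧
      ∀ f : ℕ → Fin 3 → ℂ,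
        (∀ i a, f i a =
          (-1 : ℂ) ^ i * Complex.exp (2 * (Real.pi : ℂ) * Complex.I * ((a : ℕ) : ℂ) / 3)) →
        ∀ n : ℕ, 1 ≤ n → ∃ N : ℕ, n ≤ N ∧ (N : ℝ) ≤ n + K * (n : ℝ) ^ (1 - δ) ∧
          (N : ℝ) ^ (27 / 25 : ℝ) ≤ K *
            ((∑ s ∈ (Finset.univ.filter (fun s : Fin N → Fin 3 => ∀ j₁ j₂ : Fin (N + 1),
                (∑ i ∈ Finset.univ.filter (fun i : Fin N => (i : ℕ) < (j₁ : ℕ)), f (i : ℕ) (s i)) =
                (∑ i ∈ Finset.univ.filter (fun i : Fin N => (i : ℕ) < (j₂ : ℕ)), f (i : ℕ) (s i)) →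
                j₁ = j₂)),
              ‖∑ i : Fin N, f (i : ℕ) (s i)‖ ^ 2) /
            ((Finset.univ.filter (fun s : Fin N → Fin 3 => ∀ j₁ j₂ : Fin (N + 1),
                (∑ i ∈ Finset.univ.filter (fun i : Fin N => (i : ℕ) < (j₁ : ℕ)), f (i : ℕ) (s i)) =
                (∑ i ∈ Finset.univ.filter (fun i : Fin N => (i : ℕ) < (j₂ : ℕ)), f (i : ℕ) (s i)) →
                j₁ = j₂)).card : ℝ)) := by
  obtain ⟨δ, K, h1, h2, h3, h4⟩ := HexObs.SDE.superdiffusive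
  refine ⟨δ, K, h1, h2, h3, fun f hf n hn => ?_⟩
  obtain ⟨N, k1, k2, k3⟩ := h4 n hn
  refine ⟨N, k1, k2, ?_⟩
  rw [HexObs.SDE.RW_enc f hf N] at k3
  unfold SawNu.SAC at k3
  convert k3

end Pool.Agent.Held57.SuperdiffusiveWindow
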